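import Pool.Agent.Helper38.XF.Tools

/-! Swarm XF, part MAIN: the sets of the locally constant values are uniformly finite. -/

set_option autoImplicit false

namespace Pool.Agent.Helper71.XF.MAIN

open Pool.Agent.Helper38.XF MvPolynomial Filter

/-- the constants in the ultrapower -/
noncomputable def cH (K : Type) [Field K] : K →+* UP K :=
  (Filter.Germ.coeRingHom (Filter.hyperfilter ℕ : Filter ℕ)).comp (Pi.constRingHom ℕ K)

theorem cH_apply {K : Type} [Field K] (x : K) : cH K x = ((fun _ => x : ℕ → K) : UP K) := rfl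

theorem cH_inj (K : Type) [Field K] : Function.Injective (cH K) := (cH K).injective

/-- germs of values of polynomials -/
theorem germ_eval {K σ : Type} [Field K] (F : MvPolynomial σ K) (g : σ → ℕ → K) :
    (((fun n => eval (fun s => g s n) F) : ℕ → K) : UP K) =
      eval₂ (cH K) (fun s => ((g s : ℕ → K) : UP K)) F := by
  have h1 : ((fun n => eval (fun s => g s n) F) : ℕ → K) =
      eval₂ (Pi.constRingHom ℕ K) g F := by
    funext n
    have h2 := MvPolynomial.eval₂_comp_left (Pi.evalRingHom (fun _ : ℕ => K) n)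
      (Pi.constRingHom ℕ K) g F
    have h3 : (Pi.evalRingHom (fun _ : ℕ => K) n).comp (Pi.constRingHom ℕ K) = RingHom.id K := rfl
    rw [h3] at h2
    change _ = Pi.evalRingHom (fun _ : ℕ => K) n (eval₂ (Pi.constRingHom ℕ K) g F)
    rw [h2]
    rfl
  rw [h1]
  exact MvPolynomial.eval₂_comp_left
    (Filter.Germ.coeRingHom (R := K) (Filter.hyperfilter ℕ : Filter ℕ)) (Pi.constRingHom ℕ K) g F

/-- polynomials with coefficients and parameters in `k` -/
theorem poly_k {K L ι κ : Type} [Field K] [Field L] (c : K →+* L) (k : Subfield L)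
    (F : MvPolynomial (ι ⊕ κ) K) (hF : ∀ m, c (F.coeff m) ∈ k) (v : ι → L) (hv : ∀ i, v i ∈ k) :
    ∃ G : MvPolynomial κ k, ∀ u : κ → L, aeval u G = eval₂ c (Sum.elim v u) F := by
  have h1 : map c F ∈ Set.range (map (k.subtype) : MvPolynomial (ι ⊕ κ) k →+* _) := by
    rw [MvPolynomial.mem_range_map_iff_coeffs_subset]
    intro x hx
    rw [Finset.mem_coe, MvPolynomial.mem_coeffs_iff] at hx
    obtain ⟨m, -, rfl⟩ := hx
    rw [coeff_map]
    exact ⟨⟨_, hF m⟩, rfl⟩
  obtain ⟨G, hG⟩ := h1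
  refine ⟨aeval (Sum.elim (fun i => C (⟨v i, hv i⟩ : k)) X) G, fun u => ?_⟩
  rw [← MvPolynomial.eval_map, ← hG, MvPolynomial.eval_map]
  have h2 : (aeval u).comp (aeval (Sum.elim (fun i => C (⟨v i, hv i⟩ : k)) X) :
      MvPolynomial (ι ⊕ κ) k →ₐ[k] MvPolynomial κ k) = (aeval (Sum.elim v u) :
      MvPolynomial (ι ⊕ κ) k →ₐ[k] L) := by
    apply MvPolynomial.algHom_ext
    intro s
    rcases s with i | j
    · simp only [AlgHom.comp_apply, aeval_X, Sum.elim_inl, algHom_C]
      rfl
    · simp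
  exact DFunLike.congr_fun h2 G

theorem main (h1 : St_MOVE) (h2 : St_CLO) (h3 : St_ULT) : St_MAIN := by
  classical
  intro p _ K _ _ _ O t hH hP ι κ _ _ E b
  by_contra hcon
  push Not at hcon
  -- many locally constant values
  have hv : ∀ n : ℕ, ∃ v : ι → K, ∀ S : Finset K, S.card ≤ n → ∃ a ∈ LV O E v b, a ∉ S := by
    intro n
    obtain ⟨v, hv⟩ := hcon n
    refine ⟨v, fun S hS => ?_⟩
    by_contra hno
    push Not at hno
    have hsub : LV O E v b ⊆ (S : Set K) := fun a ha => hno a ha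
    have hfin := S.finite_toSet.subset hsub
    have h4 := hv hfin
    have h5 := Set.ncard_le_ncard hsub S.finite_toSet
    rw [Set.ncard_coe_finset] at h5
    omega
  choose v hv using hv
  obtain ⟨hchar, hPL, O', hHL, hO'⟩ := h3 p K O t hH hP
  have : Infinite (UP K) := Infinite.of_injective _ (cH_inj K)
  -- the countable field
  let vs : ι → UP K := fun i => ((fun n => v n i : ℕ → K) : UP K)
  let Cs : Set (UP K) := Set.range vs ∪ ⋃ F ∈ E, (cH K) '' (F.coeffs : Set K)
  have hCs : Cs.Countable := by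
    refine (Set.finite_range vs).countable.union ?_
    refine Set.Countable.biUnion E.countable_toSet fun F _ => ?_
    exact (F.coeffs.finite_toSet.image _).countable
  obtain ⟨k, hk1, hk2, hk3, hk4⟩ := h2 p (UP K) _ hPL Cs hCs
  obtain ⟨f0, hf0⟩ := hk2.exists_eq_range ⟨0, k.zero_mem⟩
  have hrep : ∀ x : UP K, ∃ f : ℕ → K, (f : UP K) = x := fun x => Quotient.exists_rep x
  choose rp hrp using hrep
  -- the values
  have ha : ∀ n, ∃ a ∈ LV O E (v n) b, ∀ j < n, a ≠ rp (f0 j) n := by
    intro n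
    obtain ⟨a, ha, hna⟩ := hv n ((Finset.range n).image fun j => rp (f0 j) n)
      (Finset.card_image_le.trans (by simp))
    refine ⟨a, ha, fun j hj e => hna ?_⟩
    rw [Finset.mem_image]
    exact ⟨j, Finset.mem_range.2 hj, e.symm⟩
  choose a ha hna using ha
  choose w hwa hw e he hiso using ha
  let ws : κ → UP K := fun j => ((fun n => w n j : ℕ → K) : UP K)
  have hwk : ws b ∉ k := by
    intro hmem
    have h4 : ws b ∈ Set.range f0 := by rw [← hf0]; exact hmem
    obtain ⟨j, hj⟩ := h4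
    have h5 : ((rp (f0 j) : ℕ → K) : UP K) = ws b := by rw [hrp, hj]
    have h6 : ∀ᶠ n in (hyperfilter ℕ : Filter ℕ), rp (f0 j) n = w n b := Filter.Germ.coe_eq.1 h5
    have h7 : ∀ᶠ n in (hyperfilter ℕ : Filter ℕ), j < n :=
      Nat.hyperfilter_le_atTop (eventually_gt_atTop j)
    obtain ⟨n, h8, h9⟩ := (h6.and h7).exists
    exact hna n j h9 ((hwa n).symm.trans h8.symm)
  let es : UP K := ((e : ℕ → K) : UP K)
  have hes : es ≠ 0 := by
    intro h0
    have h4 : ∀ᶠ n in (hyperfilter ℕ : Filter ℕ), e n = (0 : ℕ → K) n :=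
      Filter.Germ.coe_eq.1 (show ((e : ℕ → K) : UP K) = (((0 : ℕ → K) : ℕ → K) : UP K) from h0)
    obtain ⟨n, hn⟩ := h4.exists
    exact he n hn
  obtain ⟨w', hnear, hne, hpoly⟩ := h1 p (UP K) O' _ k hHL hPL hk3 hk4 κ ws b hwk es hes
  -- equations
  have hG : ∀ F ∈ E, ∀ᶠ n in (hyperfilter ℕ : Filter ℕ),
      eval (Sum.elim (v n) fun j => rp (w' j) n) F = 0 := by
    intro F hF
    have hco : ∀ m, cH K (F.coeff m) ∈ k := by
      intro m
      by_cases hm : F.coeff m = 0
      · rw [hm, map_zero]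
        exact k.zero_mem
      · refine hk1 (Or.inr ?_)
        refine Set.mem_iUnion₂.2 ⟨F, hF, _, ?_, rfl⟩
        exact MvPolynomial.coeff_mem_coeffs _ hm
    obtain ⟨G, hG⟩ := poly_k (cH K) k F hco vs fun i => hk1 (Or.inl ⟨i, rfl⟩)
    have h4 : ∀ g : κ → ℕ → K, (((fun n => eval (Sum.elim (v n) fun j => g j n) F) : ℕ → K) : UP K) =
        aeval (fun j => ((g j : ℕ → K) : UP K)) G := by
      intro g
      rw [hG]
      have h5 := germ_eval F (Sum.elim (fun i n => v n i) g)
      have h6 : (fun n => eval (fun s => (Sum.elim (fun i n => v n i) g : ι ⊕ κ → ℕ → K) s n) F) =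
          fun n => eval (Sum.elim (v n) fun j => g j n) F := by
        funext n
        congr 2
        funext s
        rcases s with i | j <;> rfl
      have h7 : (fun s => (((Sum.elim (fun i n => v n i) g : ι ⊕ κ → ℕ → K) s : ℕ → K) : UP K)) =
          Sum.elim vs fun j => ((g j : ℕ → K) : UP K) := by
        funext s
        rcases s with i | j <;> rfl
      rw [h6, h7] at h5
      exact h5
    have h5 : aeval ws G = 0 := by
      have h6 := h4 fun j n => w n j
      have h7 : (fun n => eval (Sum.elim (v n) fun j => w n j) F) = (0 : ℕ → K) := by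
        funext n
        exact hw n F hF
      rw [h7] at h6
      exact h6.symm
    have h6 := hpoly G h5
    have h7 := h4 fun j => rp (w' j)
    have h8 : (fun j => ((rp (w' j) : ℕ → K) : UP K)) = w' := funext fun j => hrp _
    rw [h8, h6] at h7
    exact Filter.Germ.coe_eq.1 (h7.trans (rfl : (0 : UP K) = (((0 : ℕ → K) : ℕ → K) : UP K)))
  -- nearness
  have hN : ∀ j, ∀ᶠ n in (hyperfilter ℕ : Filter ℕ), Near O (e n) (rp (w' j) n) (w n j) := by
    intro j
    obtain ⟨z, hz, h4⟩ := hnear j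
    obtain ⟨z0, rfl⟩ : ∃ z0 : ℕ → K, (z0 : UP K) = z := ⟨_, hrp z⟩
    rw [← hrp (w' j)] at h4
    have h5 : (((rp (w' j) - fun n => w n j : ℕ → K)) : UP K) = ((e * z0 : ℕ → K) : UP K) := h4
    filter_upwards [(hO' z0).1 hz, Filter.Germ.coe_eq.1 h5] with n h6 h7
    exact ⟨z0 n, h6, h7⟩
  have hall := (E.eventually_all.2 hG).and (Filter.eventually_all.2 hN)
  apply hne
  rw [← hrp (w' b)]
  refine Filter.Germ.coe_eq.2 ?_
  filter_upwards [hall] with n hn
  rw [hiso n _ hn.1 hn.2, hwa n]


end Pool.Agent.Helper71.XF.MAIN
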